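import Pool.Agent.Helper99.CT.Main

/-!
Finite subgroups of cactus groups (MP_2b0b8a_al): the finite subgroups of `J_n` are, up to
isomorphism, exactly the 2-subgroups of the symmetric group `S_n`.
-/

set_option autoImplicit false

namespace Pool.Agent.Results.MP_2b0b8a_al.Classification

open Pool.Agent.Helper99.CT

/-- A finite group embeds into the cactus group `J_n` if and only if it is a 2-group that embeds
into the symmetric group `S_n`. -/
theorem result (n : ℕ) (G : Type) [Group G] [Finite G] :
    Embeds G (Cactus n) ↔ IsPGroup 2 G ∧ Embeds G (Equiv.Perm (Fin n)) :=
  classification_ n G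

end Pool.Agent.Results.MP_2b0b8a_al.Classification
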