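import Pool.Agent.Helper99.CT.Main

/-!
Finite subgroups of cactus groups (MP_2b0b8a_al): for every `n ≥ 2` the if half of the proposed
criterion holds, and the only if half holds exactly when `⌊n/2⌋` is a power of two or three
times a power of two.
-/

set_option autoImplicit false

namespace Pool.Agent.Results.MP_2b0b8a_al.FiniteSubgroups

open Pool.Agent.Helper99.CT

/-- For every `n ≥ 2`: every finite group that embeds into one of the groups `W(r_1, …, r_s)` with
all `r_k ≥ 2` and `r_1 ⋯ r_s ≤ n/2` embeds into the cactus group `J_n`; and the converse holds for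
all finite groups if and only if `⌊n/2⌋` is a power of two or three times a power of two. -/
theorem result (n : ℕ) (hn : 2 ≤ n) :
    (∀ (G : Type) [Group G] [Finite G],
      (∃ l : List ℕ, (∀ r ∈ l, 2 ≤ r) ∧ 2 * l.prod ≤ n ∧ Embeds G (W l)) →
        Embeds G (Cactus n)) ∧
    ((∀ (G : Type) [Group G] [Finite G], Embeds G (Cactus n) →
        ∃ l : List ℕ, (∀ r ∈ l, 2 ≤ r) ∧ 2 * l.prod ≤ n ∧ Embeds G (W l)) ↔
      ∃ a : ℕ, n / 2 = 2 ^ a ∨ n / 2 = 3 * 2 ^ a) :=
  answer_ n hn

end Pool.Agent.Results.MP_2b0b8a_al.FiniteSubgroups
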